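import Pool.Agent.helper41.CL.Spec

set_option autoImplicit false

namespace Pool.Agent.helper41.CL

open Finset

theorem WO : WO_stmt := by
  intro α _ V E p a b c ha hb hpa hpb hab hE
  have hdisj : ∀ C : Finset α, C ⊆ V \ {p, a, b} → Disjoint C ({a, b} : Finset α) := by
    intro C hC
    rw [Finset.disjoint_left]
    intro x hx hx2
    have h1 := hC hx
    simp only [mem_sdiff, mem_insert, mem_singleton, not_or] at h1 hx2
    rcases hx2 with h | h
    · exact h1.2.2.1 h
    · exact h1.2.2.2 h
  refine Finset.card_le_card_of_injOn (fun C => C ∪ {a, b}) ?_ ?_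
  · intro C hC
    have hC' : C ∈ cov (V \ {p, a, b}) (E.filter fun e => p ∉ e ∧ a ∉ e ∧ b ∉ e) c := hC
    unfold cov at hC'
    rw [mem_filter, mem_powersetCard] at hC'
    obtain ⟨⟨hCV, hCc⟩, hcov⟩ := hC'
    show C ∪ {a, b} ∈ cov (V.erase p) E (c + 2)
    unfold cov
    rw [mem_filter, mem_powersetCard]
    refine ⟨⟨?_, ?_⟩, ?_⟩
    · intro x hx
      rw [mem_union, mem_insert, mem_singleton] at hx
      rw [mem_erase]
      rcases hx with hx | hx | hx
      · have h1 := hCV hx
        simp only [mem_sdiff, mem_insert, mem_singleton, not_or] at h1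
        exact ⟨h1.2.1, h1.1⟩
      · subst hx
        exact ⟨fun h => hpa h.symm, ha⟩
      · subst hx
        exact ⟨fun h => hpb h.symm, hb⟩
    · rw [Finset.card_union_of_disjoint (hdisj C hCV), hCc, Finset.card_pair hab]
    · intro e he
      by_cases hp : p ∈ e
      · rcases hE e he hp with h | h
        · exact ⟨a, by rw [h]; simp, by simp⟩
        · exact ⟨b, by rw [h]; simp, by simp⟩
      · by_cases h1 : a ∈ e
        · exact ⟨a, h1, by simp⟩
        · by_cases h2 : b ∈ e
          · exact ⟨b, h2, by simp⟩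
          · obtain ⟨x, hx, hxC⟩ := hcov e (mem_filter.2 ⟨he, hp, h1, h2⟩)
            exact ⟨x, hx, mem_union_left _ hxC⟩
  · intro C hC D hD h
    have hC' : C ∈ cov (V \ {p, a, b}) (E.filter fun e => p ∉ e ∧ a ∉ e ∧ b ∉ e) c := hC
    have hD' : D ∈ cov (V \ {p, a, b}) (E.filter fun e => p ∉ e ∧ a ∉ e ∧ b ∉ e) c := hD
    unfold cov at hC' hD'
    rw [mem_filter, mem_powersetCard] at hC' hD'
    have hCd := hdisj C hC'.1.1
    have hDd := hdisj D hD'.1.1
    have h' : C ∪ {a, b} = D ∪ {a, b} := h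
    have e1 : (C ∪ {a, b}) \ {a, b} = C := by
      rw [Finset.union_sdiff_right, Finset.sdiff_eq_self_of_disjoint hCd]
    have e2 : (D ∪ {a, b}) \ {a, b} = D := by
      rw [Finset.union_sdiff_right, Finset.sdiff_eq_self_of_disjoint hDd]
    rw [← e1, h', e2]

end Pool.Agent.helper41.CL
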