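import Pool.Agent.helper41.CL.SpecB

set_option autoImplicit false

namespace Pool.Agent.helper41.CL

open Finset

theorem XP_mono {V W : Finset ℕ} {E : Finset (Finset ℕ)} (h : Gr V E) (hVW : V ⊆ W) : Gr W E :=
  fun e he => ⟨(h e he).1.trans hVW, (h e he).2⟩

theorem XP_range2 (j : ℕ) : range (j + 2) = insert j (insert (j + 1) (range j)) := by
  ext x
  simp only [mem_range, mem_insert]
  omega

theorem XP_zero : Gr (range 3) (EP 0) ∧ #(EP 0) = 2 ∧ #(cov (range 3) (EP 0) 0) = 0 ∧
    #(cov (range 3) (EP 0) 1) = 1 ∧ #(cov (range 3) (EP 0) 2) = 3 := by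
  refine ⟨?_, ?_, ?_, ?_, ?_⟩
  · unfold Gr EP
    decide
  · unfold EP
    decide
  · unfold cov EP
    decide
  · unfold cov EP
    decide
  · unfold cov EP
    decide

theorem XP_base (h1 : XK_stmt) (m : ℕ) : Gr (range (2 * m + 3)) (EP m) ∧ #(EP m) = m + 2 ∧
    (∀ c ≤ m, #(cov (range (2 * m + 3)) (EP m) c) = 0) ∧
    #(cov (range (2 * m + 3)) (EP m) (m + 1)) = 2 ^ m ∧
    2 * #(cov (range (2 * m + 3)) (EP m) (m + 2)) = 2 ^ m * (m + 6) := by
  induction m with
  | zero =>
    obtain ⟨a1, a2, a3, a4, a5⟩ := XP_zero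
    refine ⟨a1, a2, ?_, ?_, ?_⟩
    · intro c hc
      have : c = 0 := by omega
      subst this
      exact a3
    · simpa using a4
    · rw [show (0 + 2 : ℕ) = 2 from rfl, show 2 * 0 + 3 = 3 from rfl, a5]
      norm_num
  | succ m ih =>
    obtain ⟨b1, b2, b3, b4, b5⟩ := ih
    have hr : range (2 * (m + 1) + 3) = insert (2 * m + 3) (insert (2 * m + 4) (range (2 * m + 3))) := by
      rw [show 2 * (m + 1) + 3 = (2 * m + 3) + 2 by ring]
      exact XP_range2 (2 * m + 3)
    have hE : EP (m + 1) = insert {2 * m + 3, 2 * m + 4} (EP m) := rfl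
    obtain ⟨k0, k1, k2⟩ := h1 ℕ (range (2 * m + 3)) (EP m) (2 * m + 3) (2 * m + 4) (by omega)
      (by simp) (by simp) b1
    rw [← hr, ← hE] at k0 k1
    have k2' : ∀ c : ℕ, #(cov (range (2 * (m + 1) + 3)) (EP (m + 1)) (c + 2)) =
        2 * #(cov (range (2 * m + 3)) (EP m) (c + 1)) + #(cov (range (2 * m + 3)) (EP m) c) := by
      intro c
      rw [hr, hE]
      exact k2 c
    refine ⟨?_, ?_, ?_, ?_, ?_⟩
    · intro e he
      rw [hE, mem_insert] at he
      rcases he with he | he
      · subst he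
        refine ⟨?_, Finset.card_pair (by omega)⟩
        intro x hx
        rw [mem_insert, mem_singleton] at hx
        rw [mem_range]
        omega
      · refine ⟨(b1 e he).1.trans ?_, (b1 e he).2⟩
        intro x hx
        rw [mem_range] at hx ⊢
        omega
    · rw [hE, Finset.card_insert_of_notMem, b2]
      intro hmem
      have h3 := (b1 _ hmem).1 (mem_insert_self (2 * m + 3) _)
      rw [mem_range] at h3
      omega
    · intro c hc
      rcases Nat.lt_or_ge c 2 with h | h
      · rcases Nat.lt_or_ge c 1 with h' | h'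
        · have : c = 0 := by omega
          subst this
          exact k0
        · have : c = 1 := by omega
          subst this
          rw [k1, b3 0 (by omega)]
      · obtain ⟨t, rfl⟩ := Nat.exists_eq_add_of_le' h
        rw [k2' t, b3 (t + 1) (by omega), b3 t (by omega)]
    · rw [show m + 1 + 1 = m + 2 from rfl, k2' m, b4, b3 m le_rfl, pow_succ]
      ring
    · rw [show m + 1 + 2 = (m + 1) + 2 from rfl, k2' (m + 1), b4, mul_add, show m + 1 + 1 = m + 2 from rfl,
        ← mul_assoc, mul_comm 2 2, mul_assoc, b5, pow_succ]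
      ring

theorem XP (h1 : XK_stmt) (h2 : XI_stmt) : XP_stmt := by
  intro m i
  induction i with
  | zero =>
    obtain ⟨b1, b2, b3, b4, b5⟩ := XP_base h1 m
    exact ⟨b1, b2, b3, b4, by simpa using b5⟩
  | succ i ih =>
    obtain ⟨b1, b2, b3, b4, b5⟩ := ih
    have hr : range (2 * m + 3 + (i + 1)) = insert (2 * m + 3 + i) (range (2 * m + 3 + i)) := by
      rw [show 2 * m + 3 + (i + 1) = (2 * m + 3 + i) + 1 by ring, Finset.range_add_one]
    obtain ⟨k0, k1⟩ := h2 ℕ (range (2 * m + 3 + i)) (EP m) (2 * m + 3 + i) (by simp) b1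
    rw [hr]
    refine ⟨XP_mono b1 (Finset.subset_insert _ _), b2, ?_, ?_, ?_⟩
    · intro c hc
      rcases Nat.eq_zero_or_pos c with h | h
      · subst h
        rw [k0]
        exact b3 0 (by omega)
      · obtain ⟨t, rfl⟩ := Nat.exists_eq_add_of_le' h
        rw [k1 t, b3 t (by omega), b3 (t + 1) hc]
    · rw [k1 m, b3 m le_rfl, b4, zero_add]
    · rw [show m + 2 = (m + 1) + 1 from rfl, k1 (m + 1), mul_add, b4, show m + 1 + 1 = m + 2 from rfl, b5]
      ring

end Pool.Agent.helper41.CL
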