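import Pool.Agent.helper47.CL.SpecD

set_option autoImplicit false

/-!
# Row ZP of project CL, part D (MP_d9d598_co)
-/

namespace Pool.Agent.helper41.CL

open Finset

/-- membership in `av E {p}` -/
theorem ZP_mem {α : Type} [DecidableEq α] (E : Finset (Finset α)) (p : α) (e : Finset α) :
    e ∈ av E {p} ↔ e ∈ E ∧ p ∉ e := by
  unfold av
  rw [mem_filter, Finset.disjoint_singleton_right]

theorem ZP : ZP_stmt := by
  intro α _ V E p hG hp
  refine ⟨?_, Finset.card_erase_add_one hp, ?_, ?_⟩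
  · intro e he
    obtain ⟨h1, h2⟩ := (ZP_mem E p e).1 he
    refine ⟨fun x hx => ?_, (hG e h1).2⟩
    rw [mem_erase]
    refine ⟨?_, (hG e h1).1 hx⟩
    rintro rfl
    exact h2 hx
  · have h : av E {p} = E.filter fun e => ¬ p ∈ e := by
      ext e
      rw [ZP_mem, mem_filter]
    rw [h]
    unfold inc
    rw [add_comm]
    exact Finset.card_filter_add_card_filter_not (fun e => p ∈ e)
  · intro k
    refine Finset.card_le_card fun I hI => ?_
    unfold ind at hI ⊢
    rw [mem_filter, mem_powersetCard] at hI ⊢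
    obtain ⟨⟨h1, h2⟩, h3⟩ := hI
    refine ⟨⟨h1.trans (Finset.erase_subset _ _), h2⟩, fun e he hs => ?_⟩
    by_cases hpe : p ∈ e
    · exact (mem_erase.1 (h1 (hs hpe))).1 rfl
    · exact h3 e ((ZP_mem E p e).2 ⟨he, hpe⟩) hs

end Pool.Agent.helper41.CL
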